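import Mathlib

/-!
# Step isometries: smooth points and the linear functionals attached to them
-/

namespace Pool.Agent.R165.StepIso

open Filter Topology Set

variable {X : Type*} [NormedAddCommGroup X] [NormedSpace ℝ X]

/-- `v` is a unit vector at which the norm is Fréchet differentiable with derivative `f`. -/
structure Sm (v : X) (f : X →L[ℝ] ℝ) : Prop where
  unit : ‖v‖ = 1
  deriv : HasFDerivAt (fun x : X => ‖x‖) f v

namespace Sm

variable {v : X} {f : X →L[ℝ] ℝ} (h : Sm v f)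
include h

theorem ne_zero : v ≠ 0 := by
  intro h0
  have := h.unit
  rw [h0, norm_zero] at this
  exact zero_ne_one this

theorem apply_self : f v = 1 := by
  have h1 := h.deriv.differentiableAt.fderiv_norm_self
  rw [h.deriv.fderiv, h.unit] at h1
  exact h1

theorem norm_eq : ‖f‖ = 1 := by
  have : Nontrivial X := ⟨v, 0, h.ne_zero⟩
  have h1 := norm_fderiv_norm h.deriv.differentiableAt
  rw [h.deriv.fderiv] at h1
  exact h1

theorem le_norm (x : X) : |f x| ≤ ‖x‖ := by
  have h1 := f.le_opNorm x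
  rw [h.norm_eq, one_mul] at h1
  exact h1

theorem neg : Sm (-v) (-f) := by
  refine ⟨by rw [norm_neg]; exact h.unit, ?_⟩
  have h1 := h.deriv.hasFDerivAt_norm_smul_neg (t := -1) (by norm_num)
  rw [neg_one_smul] at h1
  exact h1

/-- Asymptotics of the distance to far away points in direction `v`. -/
theorem asymp (w : X) {c : ℕ → ℝ} (hc : Tendsto c atTop atTop) {y : ℕ → X}
    (hy : Tendsto (fun n => ‖y n - c n • v‖) atTop (𝓝 0)) :
    Tendsto (fun n => ‖y n - w‖ - c n) atTop (𝓝 (-f w)) := by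
  have h1 : Tendsto (fun n => ‖c n‖) atTop atTop := tendsto_norm_atTop_atTop.comp hc
  have h2 := h.deriv.lim (-w) h1
  rw [map_neg] at h2
  have h3 : Tendsto (fun n => ‖c n • v - w‖ - c n) atTop (𝓝 (-f w)) := by
    refine h2.congr' ?_
    filter_upwards [hc.eventually_gt_atTop 0] with n hn
    rw [h.unit, smul_eq_mul, mul_sub, mul_one]
    congr 1
    have : c n * ‖v + (c n)⁻¹ • -w‖ = ‖c n • (v + (c n)⁻¹ • -w)‖ := by
      rw [norm_smul, Real.norm_of_nonneg hn.le]
    rw [this, smul_add, smul_smul, mul_inv_cancel₀ hn.ne', one_smul, ← sub_eq_add_neg]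
  have h4 : Tendsto (fun n => (‖y n - w‖ - c n) - (‖c n • v - w‖ - c n)) atTop (𝓝 0) := by
    refine squeeze_zero_norm (fun n => ?_) hy
    rw [Real.norm_eq_abs]
    have e1 : (‖y n - w‖ - c n) - (‖c n • v - w‖ - c n) = ‖y n - w‖ - ‖c n • v - w‖ := by ring
    rw [e1]
    refine (abs_norm_sub_norm_le _ _).trans (le_of_eq ?_)
    congr 1
    abel
  have h5 := h4.add h3
  rw [zero_add] at h5
  refine h5.congr fun n => ?_
  ring

end Sm

/-- Step property of a bijection of a set. -/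
def StepOn (S : Set X) (T : S ≃ S) : Prop :=
  ∀ x y : S, ⌊‖(x : X) - y‖⌋ = ⌊‖(T x : X) - T y‖⌋

namespace StepOn

variable {S : Set X} {T : S ≃ S} (hT : StepOn S T)
include hT

theorem symm : StepOn S T.symm := by
  intro x y
  have := hT (T.symm x) (T.symm y)
  rw [T.apply_symm_apply, T.apply_symm_apply] at this
  exact this.symm

theorem lt_iff (x y : S) (k : ℤ) : ‖(x : X) - y‖ < k ↔ ‖(T x : X) - T y‖ < k := by
  rw [← Int.floor_lt, ← Int.floor_lt, hT x y]

theorem abs_le (x y : S) : |‖(x : X) - y‖ - ‖(T x : X) - T y‖| ≤ 1 :=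
  (Int.abs_sub_lt_one_of_floor_eq_floor (hT x y)).le

theorem norm_le [hne : Nonempty S] : ∃ C : ℝ, ∀ x : S, ‖(T x : X)‖ ≤ ‖(x : X)‖ + C := by
  obtain ⟨x0⟩ := hne
  refine ⟨‖(x0 : X)‖ + 1 + ‖(T x0 : X)‖, fun x => ?_⟩
  have h1 := hT.abs_le x x0
  rw [_root_.abs_le] at h1
  have h2 := norm_sub_le (x : X) x0
  have h3 : ‖(T x : X)‖ ≤ ‖(T x : X) - T x0‖ + ‖(T x0 : X)‖ := by
    have := norm_add_le ((T x : X) - T x0) (T x0)
    rwa [sub_add_cancel] at this
  linarith [h1.1, h1.2]

/-- The horofunctions. -/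
theorem horo (hS : Dense S) {v : X} {f : X →L[ℝ] ℝ} (h : Sm v f) (α : ℝ) :
    ∃ b : X → ℝ, (∀ s t : ℝ, 0 ≤ s → 0 ≤ t → s + t = 1 → ∀ x y : X,
        b (s • x + t • y) ≤ s * b x + t * b y) ∧
      (∀ x y : X, |b x - b y| ≤ ‖x - y‖) ∧
      (∀ x : S, |b x - (α - f (T x))| ≤ 1) ∧
      (∀ x : S, f (T x) < α → 0 ≤ b x) ∧ (∀ x : S, α < f (T x) → b x ≤ 0) := by
  -- the points
  have hy : ∀ n : ℕ, ∃ y : S, ‖(y : X) - ((n : ℝ) + α) • v‖ < 1 / ((n : ℝ) + 1) := by
    intro n
    obtain ⟨y, hyS, hy⟩ := Metric.dense_iff.mp hS (((n : ℝ) + α) • v) (1 / ((n : ℝ) + 1))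
      (by positivity)
    rw [Metric.mem_ball, dist_eq_norm] at hyS
    exact ⟨⟨y, hy⟩, hyS⟩
  choose y hy using hy
  have hc : Tendsto (fun n : ℕ => (n : ℝ) + α) atTop atTop :=
    tendsto_atTop_add_const_right _ _ tendsto_natCast_atTop_atTop
  have hy0 : Tendsto (fun n : ℕ => ‖(y n : X) - ((n : ℝ) + α) • v‖) atTop (𝓝 0) :=
    squeeze_zero (fun n => norm_nonneg _) (fun n => (hy n).le)
      tendsto_one_div_add_atTop_nhds_zero_nat
  have hlim : ∀ x : S, Tendsto (fun n : ℕ => ‖(y n : X) - T x‖ - n) atTop (𝓝 (α - f (T x))) := by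
    intro x
    have h1 := (h.asymp (T x : X) hc hy0).add_const α
    have e1 : -f (T x : X) + α = α - f (T x) := by ring
    rw [e1] at h1
    refine h1.congr fun n => ?_
    ring
  set z : ℕ → S := fun n => T.symm (y n) with hz
  have hTz : ∀ n, T (z n) = y n := fun n => T.apply_symm_apply _
  set u : X → ℕ → ℝ := fun x n => ‖(z n : X) - x‖ - n with hu
  have hlip : ∀ x x' n, |u x n - u x' n| ≤ ‖x - x'‖ := by
    intro x x' n
    have e1 : u x n - u x' n = ‖(z n : X) - x‖ - ‖(z n : X) - x'‖ := by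
      simp only [hu]
      ring
    rw [e1]
    refine (abs_norm_sub_norm_le _ _).trans (le_of_eq ?_)
    rw [← norm_neg]
    congr 1
    abel
  have hclose : ∀ x : S, ∀ n, |u x n - (‖(y n : X) - T x‖ - n)| ≤ 1 := by
    intro x n
    have := hT.abs_le (z n) x
    rw [hTz] at this
    have e1 : u x n - (‖(y n : X) - T x‖ - n) = ‖(z n : X) - x‖ - ‖(y n : X) - T x‖ := by
      simp only [hu]
      ring
    rw [e1]
    exact this
  have hne : Nonempty S := by
    obtain ⟨x, hx⟩ := hS.nonempty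
    exact ⟨⟨x, hx⟩⟩
  obtain ⟨x0⟩ := hne
  set U : Ultrafilter ℕ := hyperfilter ℕ with hU
  have hUtop : (U : Filter ℕ) ≤ atTop := Nat.hyperfilter_le_atTop
  have hex : ∀ x : X, ∃ b : ℝ, Tendsto (u x) U (𝓝 b) := by
    intro x
    have hb1 : ∀ᶠ n in (U : Filter ℕ), ‖(y n : X) - T x0‖ - n ∈
        Icc (α - f (T x0) - 1) (α - f (T x0) + 1) :=
      ((hlim x0).mono_left hUtop).eventually (Icc_mem_nhds (by linarith) (by linarith))
    have hb2 : ∀ᶠ n in (U : Filter ℕ), u x n ∈
        Icc (α - f (T x0) - 2 - ‖x - x0‖) (α - f (T x0) + 2 + ‖x - x0‖) := by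
      filter_upwards [hb1] with n hn
      have h1 := hclose x0 n
      have h2 := hlip x x0 n
      rw [_root_.abs_le] at h1 h2
      exact ⟨by linarith [h1.1, h2.1, hn.1], by linarith [h1.2, h2.2, hn.2]⟩
    obtain ⟨b, -, hb⟩ := isCompact_Icc.ultrafilter_le_nhds (U.map (u x)) (by
      rw [le_principal_iff]
      exact hb2)
    exact ⟨b, hb⟩
  choose b hb using hex
  refine ⟨b, ?_, ?_, ?_, ?_, ?_⟩
  · intro s t hs ht hst x x'
    refine le_of_tendsto_of_tendsto (hb _) (((hb x).const_mul s).add ((hb x').const_mul t)) ?_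
    refine Eventually.of_forall fun n => ?_
    simp only [hu]
    have e1 : (z n : X) - (s • x + t • x') = s • ((z n : X) - x) + t • ((z n : X) - x') := by
      have : (z n : X) = s • (z n : X) + t • (z n : X) := by rw [← add_smul, hst, one_smul]
      nth_rewrite 1 [this]
      rw [smul_sub, smul_sub]
      abel
    have h1 : ‖(z n : X) - (s • x + t • x')‖ ≤ s * ‖(z n : X) - x‖ + t * ‖(z n : X) - x'‖ := by
      rw [e1]
      refine (norm_add_le _ _).trans (le_of_eq ?_)
      rw [norm_smul, norm_smul, Real.norm_of_nonneg hs, Real.norm_of_nonneg ht]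
    have e2 : (n : ℝ) = s * n + t * n := by rw [← add_mul, hst, one_mul]
    linarith
  · intro x x'
    exact le_of_tendsto ((hb x).sub (hb x')).abs (Eventually.of_forall fun n => hlip x x' n)
  · intro x
    exact le_of_tendsto ((hb x).sub ((hlim x).mono_left hUtop)).abs
      (Eventually.of_forall fun n => hclose x n)
  · intro x hx
    refine ge_of_tendsto (hb x) ?_
    have h1 : ∀ᶠ n in (U : Filter ℕ), 0 < ‖(y n : X) - T x‖ - n :=
      ((hlim x).mono_left hUtop).eventually (lt_mem_nhds (by linarith))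
    filter_upwards [h1] with n hn
    have h2 := (hT.lt_iff (z n) x n).not
    rw [hTz, not_lt, not_lt, Int.cast_natCast] at h2
    have h3 := h2.mpr (by linarith)
    simp only [hu]
    linarith
  · intro x hx
    refine le_of_tendsto (hb x) ?_
    have h1 : ∀ᶠ n in (U : Filter ℕ), ‖(y n : X) - T x‖ - n < 0 :=
      ((hlim x).mono_left hUtop).eventually (gt_mem_nhds (by linarith))
    filter_upwards [h1] with n hn
    have h2 := hT.lt_iff (z n) x n
    rw [hTz, Int.cast_natCast] at h2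
    have h3 := h2.mpr (by linarith)
    simp only [hu]
    linarith

end StepOn

/-- Convex functions with bounded sum are affine. -/
theorem exists_affine (b b' : X → ℝ)
    (hc : ∀ s t : ℝ, 0 ≤ s → 0 ≤ t → s + t = 1 → ∀ x y : X, b (s • x + t • y) ≤ s * b x + t * b y)
    (hc' : ∀ s t : ℝ, 0 ≤ s → 0 ≤ t → s + t = 1 → ∀ x y : X,
      b' (s • x + t • y) ≤ s * b' x + t * b' y)
    (hl : ∀ x y : X, |b x - b y| ≤ ‖x - y‖) (M : ℝ) (hM : ∀ x, b x + b' x ≤ M) :
    ∃ c : ℝ, ∃ g : X →L[ℝ] ℝ, ∀ x, b x = c - g x := by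
  have hle : ∀ x y, b y + b' y ≤ b x + b' x := by
    intro x y
    by_contra hlt
    push Not at hlt
    obtain ⟨n, hn⟩ := exists_nat_gt ((M - (b x + b' x)) / (b y + b' y - (b x + b' x)))
    rw [div_lt_iff₀ (by linarith)] at hn
    have hn0 : 0 < (n : ℝ) := by
      rcases (Nat.cast_nonneg n : (0 : ℝ) ≤ n).lt_or_eq with h | h
      · exact h
      · rw [← h, zero_mul] at hn
        linarith [hM x]
    have hn1 : (1 : ℝ) ≤ n := by exact_mod_cast Nat.one_le_iff_ne_zero.mpr (by
      rintro rfl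
      simp at hn0)
    have e1 : y = (1 - (n : ℝ)⁻¹) • x + (n : ℝ)⁻¹ • (x + (n : ℝ) • (y - x)) := by
      rw [smul_add, smul_smul, inv_mul_cancel₀ hn0.ne', one_smul, sub_smul, one_smul]
      abel
    have hinv : (n : ℝ)⁻¹ ≤ 1 := inv_le_one_of_one_le₀ hn1
    have h1 := hc (1 - (n : ℝ)⁻¹) (n : ℝ)⁻¹ (by linarith) (by positivity) (by ring) x
      (x + (n : ℝ) • (y - x))
    have h2 := hc' (1 - (n : ℝ)⁻¹) (n : ℝ)⁻¹ (by linarith) (by positivity) (by ring) x
      (x + (n : ℝ) • (y - x))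
    rw [← e1] at h1 h2
    have h3 : (n : ℝ)⁻¹ * (b (x + (n : ℝ) • (y - x)) + b' (x + (n : ℝ) • (y - x))) ≤
        (n : ℝ)⁻¹ * M := mul_le_mul_of_nonneg_left (hM _) (by positivity)
    have h4 : b y + b' y - (b x + b' x) ≤ (n : ℝ)⁻¹ * (M - (b x + b' x)) := by
      nlinarith
    rw [inv_mul_eq_div, le_div_iff₀ hn0] at h4
    nlinarith
  have hconst : ∀ x, b' x = (b 0 + b' 0) - b x := by
    intro x
    have := le_antisymm (hle x 0) (hle 0 x)
    linarith
  have haff : ∀ s t : ℝ, 0 ≤ s → 0 ≤ t → s + t = 1 → ∀ x y : X,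
      b (s • x + t • y) = s * b x + t * b y := by
    intro s t hs ht hst x y
    refine le_antisymm (hc s t hs ht hst x y) ?_
    have := hc' s t hs ht hst x y
    rw [hconst, hconst x, hconst y] at this
    have e : s * (b 0 + b' 0 - b x) + t * (b 0 + b' 0 - b y) =
      (s + t) * (b 0 + b' 0) - (s * b x + t * b y) := by ring
    rw [e, hst, one_mul] at this
    linarith
  have hadd : ∀ x y, b (x + y) = b x + b y - b 0 := by
    intro x y
    have h1 := haff (1 / 2) (1 / 2) (by norm_num) (by norm_num) (by norm_num)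
      ((2 : ℝ) • x) ((2 : ℝ) • y)
    have h2 := haff (1 / 2) (1 / 2) (by norm_num) (by norm_num) (by norm_num)
      ((2 : ℝ) • x) 0
    have h3 := haff (1 / 2) (1 / 2) (by norm_num) (by norm_num) (by norm_num)
      ((2 : ℝ) • y) 0
    rw [smul_zero, add_zero] at h2 h3
    rw [smul_smul] at h1 h2 h3
    rw [smul_smul] at h1
    norm_num at h1 h2 h3
    linarith
  let G : X →+ ℝ :=
    { toFun := fun x => b 0 - b x
      map_zero' := by ring
      map_add' := fun x y => by
        rw [hadd]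
        ring }
  have hG : Continuous G := by
    refine (LipschitzWith.of_dist_le_mul (K := 1) fun x y => ?_).continuous
    rw [NNReal.coe_one, one_mul, Real.dist_eq, dist_eq_norm]
    have e : G x - G y = -(b x - b y) := by
      change (b 0 - b x) - (b 0 - b y) = _
      ring
    rw [e, abs_neg]
    exact hl x y
  refine ⟨b 0, G.toRealLinearMap hG, fun x => ?_⟩
  change b x = b 0 - (b 0 - b x)
  ring

/-- Bounds extend from a dense set. -/
theorem dense_le {S : Set X} (hS : Dense S) {u w : X → ℝ} (hu : Continuous u) (hw : Continuous w)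
    (h : ∀ x : S, u x ≤ w x) (x : X) : u x ≤ w x := by
  have h1 : IsClosed {x | u x ≤ w x} := isClosed_le hu hw
  have h2 : S ⊆ {x | u x ≤ w x} := fun x hx => h ⟨x, hx⟩
  have h3 : closure S ⊆ {x | u x ≤ w x} := closure_minimal h2 h1
  rw [hS.closure_eq] at h3
  exact h3 (mem_univ x)

/-- Comparison of norms. -/
theorem norm_le_of_close {S : Set X} (hS : Dense S) {L1 L2 : X →L[ℝ] ℝ} {U : S → X} {C C' : ℝ}
    (hU : ∀ x : S, ‖U x‖ ≤ ‖(x : X)‖ + C') (h : ∀ x : S, |L1 x - L2 (U x)| ≤ C) :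
    ‖L1‖ ≤ ‖L2‖ := by
  have h1 : ∀ x : X, |L1 x| ≤ ‖L2‖ * (‖x‖ + C') + C := by
    refine dense_le hS (by fun_prop) (by fun_prop) fun x => ?_
    have h2 := h x
    have h3 := L2.le_opNorm (U x)
    have h4 := mul_le_mul_of_nonneg_left (hU x) (norm_nonneg L2)
    rw [Real.norm_eq_abs] at h3
    have h5 := abs_sub_abs_le_abs_sub (L1 x) (L2 (U x))
    linarith
  refine L1.opNorm_le_bound (norm_nonneg _) fun x => ?_
  rw [Real.norm_eq_abs]
  by_contra hlt
  push Not at hlt
  obtain ⟨n, hn⟩ := exists_nat_gt ((‖L2‖ * C' + C) / (|L1 x| - ‖L2‖ * ‖x‖))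
  rw [div_lt_iff₀ (by linarith)] at hn
  have h2 := h1 ((n : ℝ) • x)
  rw [map_smul, smul_eq_mul, abs_mul, Nat.abs_cast, norm_smul, Real.norm_of_nonneg
    (Nat.cast_nonneg n)] at h2
  nlinarith

/-- The functional attached to a smooth point. -/
structure Dat (S : Set X) (T : S ≃ S) (f g : X →L[ℝ] ℝ) : Prop where
  close : ∃ C : ℝ, ∀ x : S, |g x - f (T x)| ≤ C
  mono : ∀ x x' : S, f (T x) < f (T x') → g x ≤ g x'

theorem exists_dat {S : Set X} (hS : Dense S) {T : S ≃ S} (hT : StepOn S T) {v : X}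
    {f : X →L[ℝ] ℝ} (h : Sm v f) : ∃ g, Dat S T f g := by
  obtain ⟨b', hc', hl', hb', -, -⟩ := hT.horo hS h.neg 0
  have key : ∀ α : ℝ, ∃ c : ℝ, ∃ g : X →L[ℝ] ℝ, (∀ x : S, |(c - g x) - (α - f (T x))| ≤ 1) ∧
      (∀ x : S, f (T x) < α → 0 ≤ c - g x) ∧ (∀ x : S, α < f (T x) → c - g x ≤ 0) := by
    intro α
    obtain ⟨b, hc, hl, hb, hb1, hb2⟩ := hT.horo hS h α
    have hcont : ∀ w : X → ℝ, (∀ x y, |w x - w y| ≤ ‖x - y‖) → Continuous w := by
      intro w hw
      refine (LipschitzWith.of_dist_le_mul (K := 1) fun x y => ?_).continuous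
      rw [NNReal.coe_one, one_mul, Real.dist_eq, dist_eq_norm]
      exact hw x y
    obtain ⟨c, g, hg⟩ := exists_affine b b' hc hc' hl (α + 2) (by
      refine dense_le hS ((hcont b hl).add (hcont b' hl')) continuous_const fun x => ?_
      have h1 := hb x
      have h2 := hb' x
      rw [neg_apply] at h2
      rw [abs_le] at h1 h2
      linarith [h1.2, h2.2])
    refine ⟨c, g, fun x => ?_, fun x hx => ?_, fun x hx => ?_⟩
    · rw [← hg]
      exact hb x
    · rw [← hg]
      exact hb1 x hx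
    · rw [← hg]
      exact hb2 x hx
  obtain ⟨c0, g0, h0, -, -⟩ := key 0
  refine ⟨g0, ⟨1 + |c0|, fun x => ?_⟩, fun x x' hxx' => ?_⟩
  · have h1 := h0 x
    rw [abs_le] at h1 ⊢
    have h2 := neg_abs_le c0
    have h3 := le_abs_self c0
    constructor <;> linarith [h1.1, h1.2]
  · obtain ⟨c, g, h1, h2, h3⟩ := key ((f (T x) + f (T x')) / 2)
    have hgg : g = g0 := by
      have h4 : ‖g - g0‖ ≤ ‖(0 : X →L[ℝ] ℝ)‖ := by
        refine norm_le_of_close hS (U := fun x => x) (C := 2 + |c - c0 - (f (T x) + f (T x')) / 2|)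
          (C' := 0) (fun x => by rw [add_zero]) fun y => ?_
        have h5 := h1 y
        have h6 := h0 y
        rw [sub_apply, zero_apply, sub_zero]
        have h7 := neg_abs_le (c - c0 - (f (T x) + f (T x')) / 2)
        have h8 := le_abs_self (c - c0 - (f (T x) + f (T x')) / 2)
        rw [abs_le] at h5 h6 ⊢
        constructor <;> linarith [h5.1, h5.2, h6.1, h6.2]
      rw [norm_zero] at h4
      exact sub_eq_zero.mp (norm_le_zero_iff.mp h4)
    have h5 := h2 x (by linarith)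
    have h6 := h3 x' (by linarith)
    rw [hgg] at h5 h6
    linarith

end Pool.Agent.R165.StepIso
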