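import Pool.Agent.R165.StepIso.A

/-!
# Fréchet smooth points are dense when the dual is separable
-/

namespace Pool.Agent.R165.StepIso

open Filter Topology Set

variable {X : Type*} [NormedAddCommGroup X] [NormedSpace ℝ X]

/-- A selection of norming functionals. -/
theorem exists_sel : ∃ φ : X → X →L[ℝ] ℝ, ∀ x, ‖φ x‖ ≤ 1 ∧ φ x x = ‖x‖ := by
  choose φ h1 h2 using fun x : X => exists_dual_vector'' ℝ x
  exact ⟨φ, fun x => ⟨h1 x, by simpa using h2 x⟩⟩

theorem apply_le {g : X →L[ℝ] ℝ} (hg : ‖g‖ ≤ 1) (x : X) : g x ≤ ‖x‖ := by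
  have h1 := g.le_opNorm x
  have h2 := mul_le_mul_of_nonneg_right hg (norm_nonneg x)
  rw [Real.norm_eq_abs] at h1
  linarith [le_abs_self (g x)]

/-- The exceptional sets. -/
def Bad (φ : X → X →L[ℝ] ℝ) (a : X →L[ℝ] ℝ) (η : ℝ) : Set X :=
  {x | ‖φ x - a‖ < η / 4 ∧ ∀ δ > 0, ∃ z, ‖z - x‖ < δ ∧ η ≤ ‖φ z - φ x‖}

theorem bad_hole {φ : X → X →L[ℝ] ℝ} (hφ : ∀ x, ‖φ x‖ ≤ 1 ∧ φ x x = ‖x‖) {a : X →L[ℝ] ℝ}
    {η : ℝ} (hη : 0 < η) {x : X} (hx : x ∈ Bad φ a η) {δ : ℝ} (hδ : 0 < δ) :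
    ∃ q, ‖q - x‖ < δ ∧ ∃ ρ > 0, ∀ y, ‖y - q‖ < ρ → y ∉ Bad φ a η := by
  obtain ⟨hx1, hx2⟩ := hx
  obtain ⟨z, hz1, hz2⟩ := hx2 (δ / 2) (by linarith)
  have h3 : η / 2 < ‖φ z - a‖ := by
    have h4 : ‖φ z - φ x‖ ≤ ‖φ z - a‖ + ‖φ x - a‖ := by
      have e : φ z - φ x = (φ z - a) - (φ x - a) := by abel
      rw [e]
      exact norm_sub_le _ _
    linarith
  obtain ⟨e, he1, he2⟩ : ∃ e : X, ‖e‖ < 1 ∧ η / 2 < (φ z - a) e := by
    obtain ⟨e, he1, he2⟩ := (φ z - a).exists_lt_apply_of_lt_opNorm h3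
    rw [Real.norm_eq_abs] at he2
    rcases lt_abs.mp he2 with h | h
    · exact ⟨e, he1, h⟩
    · refine ⟨-e, by rw [norm_neg]; exact he1, ?_⟩
      rw [map_neg]
      exact h
  set t := δ / 4 with ht
  have ht0 : 0 < t := by positivity
  set M := ‖φ z - a‖ with hM
  have hM0 : 0 ≤ M := norm_nonneg _
  refine ⟨z + t • e, ?_, t * η / (8 * (M + η)), by positivity, ?_⟩
  · have e1 : z + t • e - x = (z - x) + t • e := by abel
    rw [e1]
    refine (norm_add_le _ _).trans_lt ?_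
    rw [norm_smul, Real.norm_of_nonneg ht0.le]
    nlinarith
  · intro y hy hyB
    have hyB1 := hyB.1
    set w := y - (z + t • e) with hw
    have hyz : y - z = t • e + w := by
      rw [hw]
      abel
    have hmono : 0 ≤ (φ y - φ z) (y - z) := by
      have h1 := (hφ y).2
      have h2 := (hφ z).2
      have h3 := apply_le (hφ y).1 z
      have h4 := apply_le (hφ z).1 y
      rw [sub_apply, map_sub, map_sub]
      linarith
    have h5 : (φ z - a) (y - z) ≤ (φ y - a) (y - z) := by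
      have e1 : (φ y - φ z) (y - z) = (φ y - a) (y - z) - (φ z - a) (y - z) := by
        simp only [sub_apply]
        ring
      linarith
    have h6 : t * (η / 2) - M * ‖w‖ ≤ (φ z - a) (y - z) := by
      rw [hyz, map_add, map_smul, smul_eq_mul]
      have h7 := (φ z - a).le_opNorm w
      rw [Real.norm_eq_abs] at h7
      have h8 := neg_abs_le ((φ z - a) w)
      have h9 := mul_le_mul_of_nonneg_left he2.le ht0.le
      linarith
    have h7 : (φ y - a) (y - z) ≤ η / 4 * (t + ‖w‖) := by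
      have h8 := (φ y - a).le_opNorm (y - z)
      rw [Real.norm_eq_abs] at h8
      have h9 : ‖y - z‖ ≤ t + ‖w‖ := by
        rw [hyz]
        refine (norm_add_le _ _).trans ?_
        rw [norm_smul, Real.norm_of_nonneg ht0.le]
        nlinarith
      calc (φ y - a) (y - z) ≤ |(φ y - a) (y - z)| := le_abs_self _
        _ ≤ ‖φ y - a‖ * ‖y - z‖ := h8
        _ ≤ η / 4 * (t + ‖w‖) := mul_le_mul hyB1.le h9 (norm_nonneg _) (by positivity)
    have h8 : ‖w‖ * (8 * (M + η)) < t * η := (lt_div_iff₀ (by positivity)).mp hy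
    nlinarith [norm_nonneg w]

theorem dense_compl_closure_bad {φ : X → X →L[ℝ] ℝ} (hφ : ∀ x, ‖φ x‖ ≤ 1 ∧ φ x x = ‖x‖)
    (a : X →L[ℝ] ℝ) {η : ℝ} (hη : 0 < η) : Dense (closure (Bad φ a η))ᶜ := by
  rw [← interior_eq_empty_iff_dense_compl]
  by_contra hne
  obtain ⟨x1, hx1⟩ := nonempty_iff_ne_empty.mpr hne
  obtain ⟨x, hxU, hxB⟩ := mem_closure_iff.mp (interior_subset hx1) _ isOpen_interior hx1
  obtain ⟨δ, hδ, hball⟩ := Metric.isOpen_iff.mp isOpen_interior x hxU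
  obtain ⟨q, hq, ρ, hρ, hhole⟩ := bad_hole hφ hη hxB hδ
  have hqU : q ∈ interior (closure (Bad φ a η)) := hball (by
    rw [Metric.mem_ball, dist_eq_norm]
    exact hq)
  obtain ⟨y, hy1, hy2⟩ := Metric.mem_closure_iff.mp (interior_subset hqU) ρ hρ
  rw [dist_comm, dist_eq_norm] at hy2
  exact hhole y hy2 hy1

/-- Differentiability at points of continuity of the selection. -/
theorem deriv_of_cont {φ : X → X →L[ℝ] ℝ} (hφ : ∀ x, ‖φ x‖ ≤ 1 ∧ φ x x = ‖x‖) {x : X}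
    (hx : ∀ ε > 0, ∃ δ > 0, ∀ z, ‖z - x‖ < δ → ‖φ z - φ x‖ < ε) :
    HasFDerivAt (fun x : X => ‖x‖) (φ x) x := by
  rw [hasFDerivAt_iff_isLittleO_nhds_zero, Asymptotics.isLittleO_iff]
  intro c hc
  obtain ⟨δ, hδ, h⟩ := hx c hc
  filter_upwards [Metric.ball_mem_nhds (0 : X) hδ] with w hw
  rw [Metric.mem_ball, dist_zero_right] at hw
  have h1 := h (x + w) (by
    have : x + w - x = w := by abel
    rw [this]
    exact hw)
  have h2 : φ x (x + w) ≤ ‖x + w‖ := apply_le (hφ x).1 _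
  have h3 : φ (x + w) x ≤ ‖x‖ := apply_le (hφ (x + w)).1 _
  have h4 := (hφ x).2
  have h5 := (hφ (x + w)).2
  rw [map_add] at h2 h5
  have h6 := (φ (x + w) - φ x).le_opNorm w
  rw [Real.norm_eq_abs, sub_apply] at h6
  have h7 := mul_le_mul_of_nonneg_right h1.le (norm_nonneg w)
  rw [Real.norm_eq_abs, abs_le]
  have h8 := le_abs_self (φ (x + w) w - φ x w)
  have h9 : 0 ≤ c * ‖w‖ := by positivity
  constructor <;> linarith

/-- In a Banach space with separable dual the norm is Fréchet differentiable on a dense set. -/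
theorem dense_smooth [CompleteSpace X] [TopologicalSpace.SeparableSpace (X →L[ℝ] ℝ)] :
    Dense {x : X | ∃ f : X →L[ℝ] ℝ, HasFDerivAt (fun x : X => ‖x‖) f x} := by
  obtain ⟨φ, hφ⟩ := exists_sel (X := X)
  have h1 : Dense (⋂ p : ℕ × ℕ, (closure (Bad φ (TopologicalSpace.denseSeq (X →L[ℝ] ℝ) p.1)
      (1 / ((p.2 : ℝ) + 1))))ᶜ) :=
    dense_iInter_of_isOpen (fun p => isClosed_closure.isOpen_compl)
      (fun p => dense_compl_closure_bad hφ _ (by positivity))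
  refine h1.mono fun x hx => ⟨φ x, deriv_of_cont hφ fun ε hε => ?_⟩
  obtain ⟨m, hm⟩ := exists_nat_one_div_lt hε
  have hm0 : (0 : ℝ) < 1 / ((m : ℝ) + 1) := by positivity
  obtain ⟨k, hk⟩ := Metric.denseRange_iff.mp (TopologicalSpace.denseRange_denseSeq (X →L[ℝ] ℝ))
    (φ x) (1 / ((m : ℝ) + 1) / 4) (by positivity)
  rw [dist_eq_norm] at hk
  have h2 := mem_iInter.mp hx (k, m)
  by_contra hcon
  push Not at hcon
  refine h2 (subset_closure ⟨hk, fun δ hδ => ?_⟩)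
  obtain ⟨z, hz1, hz2⟩ := hcon δ hδ
  exact ⟨z, hz1, hm.le.trans hz2⟩

/-- Dense set of smooth points, with their unit vectors. -/
theorem exists_sm [CompleteSpace X] [TopologicalSpace.SeparableSpace (X →L[ℝ] ℝ)] {O : Set X}
    (hO : IsOpen O) (hne : O.Nonempty) (h0 : (0 : X) ∉ O) :
    ∃ q ∈ O, ∃ f : X →L[ℝ] ℝ, Sm (‖q‖⁻¹ • q) f := by
  obtain ⟨q, hqO, f, hf⟩ := dense_smooth.inter_open_nonempty O hO hne
  have hq : 0 < ‖q‖ := norm_pos_iff.mpr fun h => h0 (h ▸ hqO)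
  refine ⟨q, hqO, f, ?_, hf.hasFDerivAt_norm_smul_pos (by positivity)⟩
  rw [norm_smul, norm_inv, norm_norm, inv_mul_cancel₀ hq.ne']

/-- Šmulian's lemma. -/
theorem smulian {v0 : X} {f0 : X →L[ℝ] ℝ} (h0 : Sm v0 f0) {ε : ℝ} (hε : 0 < ε) :
    ∃ η > 0, ∀ f : X →L[ℝ] ℝ, ‖f‖ ≤ 1 → 1 - η ≤ f v0 → ‖f - f0‖ ≤ ε := by
  have h1 := h0.deriv
  rw [hasFDerivAt_iff_isLittleO_nhds_zero, Asymptotics.isLittleO_iff] at h1
  obtain ⟨δ, hδ, h2⟩ := Metric.eventually_nhds_iff.mp (h1 (c := ε / 2) (by positivity))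
  refine ⟨ε * δ / 8, by positivity, fun f hf hfv => ?_⟩
  have key : ∀ x : X, ‖x‖ = 1 → (f - f0) x ≤ ε := by
    intro x hx
    have h3 : ‖(δ / 2) • x‖ = δ / 2 := by
      rw [norm_smul, hx, mul_one, Real.norm_of_nonneg (by positivity)]
    have h4 := h2 (y := (δ / 2) • x) (by
      rw [dist_zero_right, h3]
      linarith)
    rw [h3, h0.unit, Real.norm_eq_abs, abs_le] at h4
    have h5 : f (v0 + (δ / 2) • x) ≤ ‖v0 + (δ / 2) • x‖ := apply_le hf _
    rw [map_add, map_smul, smul_eq_mul] at h5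
    rw [map_smul, smul_eq_mul] at h4
    have h6 := h4.2
    have h7 : δ / 2 * (f x - f0 x) ≤ δ / 2 * ε := by nlinarith
    rw [sub_apply]
    exact le_of_mul_le_mul_left h7 (by positivity)
  refine ContinuousLinearMap.opNorm_le_of_unit_norm hε.le fun x hx => ?_
  rw [Real.norm_eq_abs, abs_le]
  have h3 := key x hx
  have h4 := key (-x) (by rw [norm_neg]; exact hx)
  rw [map_neg] at h4
  constructor <;> linarith

end Pool.Agent.R165.StepIso
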