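import Pool.Agent.R165.StepIso.B

/-!
# Step isometries of dense subsets are isometries in dimension at least two
-/

namespace Pool.Agent.R165.StepIso

open Filter Topology Set

variable {X : Type*} [NormedAddCommGroup X] [NormedSpace ℝ X]

/-- The abstract rigidity lemma. -/
theorem rigid {S : Type*} (F G : S → ℝ) (C : ℝ) (hC : ∀ x, |G x - F x| ≤ C)
    (hmono : ∀ x x', F x < F x' → G x ≤ G x') (hd : ∀ a b : ℝ, a < b → ∃ x, a < G x ∧ G x < b)
    (hcmp : ∀ t t' a ε : ℝ, 0 < ε → ∃ x y x' y', G y < t ∧ t + a < G x ∧ t' < G y' ∧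
      G x' < t' + a ∧ F x - F y ≤ F x' - F y' + ε) :
    ∃ c, ∀ x, F x = G x + c := by
  set H : ℝ → ℝ := fun t => sSup (F '' {x | G x < t}) with hH
  have hbdd : ∀ t, BddAbove (F '' {x | G x < t}) := by
    intro t
    refine ⟨t + C, ?_⟩
    rintro _ ⟨x, hx, rfl⟩
    have h1 := (abs_le.mp (hC x)).1
    have h2 : G x < t := hx
    linarith
  have hne : ∀ t, (F '' {x | G x < t}).Nonempty := by
    intro t
    obtain ⟨x, -, hx⟩ := hd (t - 1) t (by linarith)
    exact ⟨_, x, hx, rfl⟩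
  have H1 : ∀ x t, G x < t → F x ≤ H t := fun x t hx => le_csSup (hbdd t) ⟨x, hx, rfl⟩
  have H2 : ∀ x t, t < G x → H t ≤ F x := by
    intro x t hx
    refine csSup_le (hne t) ?_
    rintro _ ⟨y, hy, rfl⟩
    by_contra hlt
    push Not at hlt
    have h1 := hmono x y hlt
    have h2 : G y < t := hy
    linarith
  have H3 : ∀ t, |H t - t| ≤ C + 1 := by
    intro t
    obtain ⟨x, hx1, hx2⟩ := hd (t - 1) t (by linarith)
    obtain ⟨y, hy1, hy2⟩ := hd t (t + 1) (by linarith)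
    have h1 := H1 x t hx2
    have h2 := H2 y t hy1
    have h3 := abs_le.mp (hC x)
    have h4 := abs_le.mp (hC y)
    rw [abs_le]
    constructor <;> linarith [h3.1, h3.2, h4.1, h4.2]
  have H4 : ∀ t t' a, H (t + a) - H t ≤ H (t' + a) - H t' := by
    intro t t' a
    refine le_of_forall_pos_le_add fun ε hε => ?_
    obtain ⟨x, y, x', y', h1, h2, h3, h4, h5⟩ := hcmp t t' a ε hε
    have h6 := H1 y t h1
    have h7 := H2 x _ h2
    have h8 := H2 y' _ h3
    have h9 := H1 x' _ h4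
    linarith
  have H5 : ∀ t a, H (t + a) = H t + (H a - H 0) := by
    intro t a
    have h1 := H4 t 0 a
    have h2 := H4 0 t a
    rw [zero_add] at h1 h2
    linarith
  have H6 : ∀ a (n : ℕ), H (n * a) = H 0 + n * (H a - H 0) := by
    intro a n
    induction n with
    | zero => simp
    | succ n ih =>
      have e : ((n + 1 : ℕ) : ℝ) * a = n * a + a := by push_cast; ring
      rw [e, H5, ih]
      push_cast
      ring
  have H7 : ∀ a, H a = H 0 + a := by
    intro a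
    by_contra hne
    have hpos : 0 < |H a - H 0 - a| := abs_pos.mpr fun h => hne (by linarith)
    obtain ⟨n, hn⟩ := exists_nat_gt ((2 * (C + 1)) / |H a - H 0 - a|)
    rw [div_lt_iff₀ hpos] at hn
    have h1 := H3 (n * a)
    have h2 := H3 0
    rw [H6] at h1
    have h3 : |(n : ℝ) * (H a - H 0 - a)| ≤ 2 * (C + 1) := by
      have e : (n : ℝ) * (H a - H 0 - a) = (H 0 + n * (H a - H 0) - n * a) - (H 0 - 0) := by ring
      rw [e]
      refine (abs_sub _ _).trans ?_
      linarith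
    rw [abs_mul, Nat.abs_cast] at h3
    linarith
  refine ⟨H 0, fun x => le_antisymm ?_ ?_⟩
  · refine le_of_forall_pos_le_add fun ε hε => ?_
    have h1 := H1 x (G x + ε) (by linarith)
    rw [H7] at h1
    linarith
  · refine le_of_forall_pos_le_add fun ε hε => ?_
    have h1 := H2 x (G x - ε) (by linarith)
    rw [H7] at h1
    linarith

section
variable {S : Set X} (hS : Dense S) {T : S ≃ S} (hT : StepOn S T)
include hS hT

theorem dat_norm {f1 g1 f2 g2 : X →L[ℝ] ℝ} (d1 : Dat S T f1 g1) (d2 : Dat S T f2 g2) (a b : ℝ) :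
    ‖a • g1 + b • g2‖ = ‖a • f1 + b • f2‖ := by
  obtain ⟨x0, hx0⟩ := hS.nonempty
  have hne : Nonempty S := ⟨⟨x0, hx0⟩⟩
  obtain ⟨C1, h1⟩ := d1.close
  obtain ⟨C2, h2⟩ := d2.close
  obtain ⟨K, hK⟩ := hT.norm_le
  obtain ⟨K', hK'⟩ := hT.symm.norm_le
  have key : ∀ x : S, |(a • g1 + b • g2) x - (a • f1 + b • f2) (T x)| ≤ |a| * C1 + |b| * C2 := by
    intro x
    have e : (a • g1 + b • g2) x - (a • f1 + b • f2) (T x) =
        a * (g1 x - f1 (T x)) + b * (g2 x - f2 (T x)) := by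
      simp only [add_apply, smul_apply, smul_eq_mul]
      ring
    rw [e]
    refine (abs_add_le _ _).trans ?_
    rw [abs_mul, abs_mul]
    exact add_le_add (mul_le_mul_of_nonneg_left (h1 x) (abs_nonneg _))
      (mul_le_mul_of_nonneg_left (h2 x) (abs_nonneg _))
  refine le_antisymm (norm_le_of_close hS (U := fun x => T x) hK key)
    (norm_le_of_close hS (U := fun x => T.symm x) (C := |a| * C1 + |b| * C2) hK' fun y => ?_)
  have := key (T.symm y)
  rw [T.apply_symm_apply, abs_sub_comm] at this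
  exact this

theorem dat_norm1 {v : X} {f g : X →L[ℝ] ℝ} (h : Sm v f) (d : Dat S T f g) : ‖g‖ = 1 := by
  have := dat_norm hS hT d d 1 0
  rw [one_smul, zero_smul, add_zero, one_smul, zero_smul, add_zero, h.norm_eq] at this
  exact this

end

theorem ker_mul {g g0 : X →L[ℝ] ℝ} (hg : g ≠ 0) (h : ∀ e, g e = 0 → g0 e = 0) :
    ∃ l : ℝ, g0 = l • g := by
  obtain ⟨e, he⟩ : ∃ e, g e ≠ 0 := by
    by_contra hcon
    push Not at hcon
    exact hg (ContinuousLinearMap.ext hcon)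
  refine ⟨g0 e / g e, ContinuousLinearMap.ext fun x => ?_⟩
  have h1 := h (x - (g x / g e) • e) (by
    rw [map_sub, map_smul, smul_eq_mul, div_mul_cancel₀ _ he, sub_self])
  rw [map_sub, map_smul, smul_eq_mul] at h1
  rw [smul_apply, smul_eq_mul]
  field_simp at h1 ⊢
  linarith

section
variable {S : Set X} (hS : Dense S) {T : S ≃ S} (hT : StepOn S T)
include hS hT

theorem pair_norm {v0 v : X} {f0 f g0 g : X →L[ℝ] ℝ} (h0 : Sm v0 f0) (d0 : Dat S T f0 g0)
    (h : Sm v f) (d : Dat S T f g) (hv : ‖v - v0‖ ≤ 1 / 2) (l : ℝ) :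
    1 / 2 ≤ ‖(1 + l) • g0 + (-l) • g‖ := by
  rw [dat_norm hS hT d0 d]
  have h1 : f0 v ≤ 1 := by
    have := (le_abs_self _).trans (h0.le_norm v)
    rwa [h.unit] at this
  have h2 : f v0 ≤ 1 := by
    have := (le_abs_self _).trans (h.le_norm v0)
    rwa [h0.unit] at this
  have h3 : 1 / 2 ≤ f0 v := by
    have := (neg_abs_le _).trans' (neg_le_neg (h0.le_norm (v - v0)))
    rw [map_sub, h0.apply_self] at this
    linarith
  rcases le_total l 0 with hl | hl
  · have h4 := ((1 + l) • f0 + (-l) • f).le_opNorm v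
    rw [h.unit, mul_one, Real.norm_eq_abs] at h4
    have h5 := le_abs_self (((1 + l) • f0 + (-l) • f) v)
    simp only [add_apply, smul_apply, smul_eq_mul, h.apply_self] at h4 h5
    nlinarith
  · have h4 := ((1 + l) • f0 + (-l) • f).le_opNorm v0
    rw [h0.unit, mul_one, Real.norm_eq_abs] at h4
    have h5 := le_abs_self (((1 + l) • f0 + (-l) • f) v0)
    simp only [add_apply, smul_apply, smul_eq_mul, h0.apply_self] at h4 h5
    nlinarith

theorem pair_z {v0 v : X} {f0 f g0 g : X →L[ℝ] ℝ} (h0 : Sm v0 f0) (d0 : Dat S T f0 g0)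
    (h : Sm v f) (d : Dat S T f g) (hv : ‖v - v0‖ ≤ 1 / 2) (hne : g ≠ g0) :
    ∃ z, g0 z = 1 ∧ g z = 1 ∧ ‖z‖ ≤ 4 := by
  set p : Submodule ℝ X := LinearMap.ker ((g - g0 : X →L[ℝ] ℝ) : X →ₗ[ℝ] ℝ) with hp
  obtain ⟨G, hG1, hG2⟩ := exists_extension_norm_eq p (g0.comp p.subtypeL)
  obtain ⟨l, hl⟩ := ker_mul (g := g - g0) (g0 := g0 - G) (sub_ne_zero.mpr hne) (by
    intro e he
    have h1 := hG1 ⟨e, by
      rw [hp, LinearMap.mem_ker]
      exact he⟩
    rw [sub_apply, h1]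
    exact sub_self _)
  have hG3 : G = (1 + l) • g0 + (-l) • g := by
    have : G = g0 - (g0 - G) := by abel
    rw [this, hl]
    module
  have h1 : 1 / 2 ≤ ‖G‖ := by
    rw [hG3]
    exact pair_norm hS hT h0 d0 h d hv l
  rw [hG2] at h1
  obtain ⟨x, hx1, hx2⟩ := (g0.comp p.subtypeL).exists_lt_apply_of_lt_opNorm
    (r := 1 / 4) (by linarith)
  have hx3 : (g0.comp p.subtypeL) x = g0 (x : X) := rfl
  rw [hx3, Real.norm_eq_abs] at hx2
  have hx4 : g (x : X) = g0 (x : X) := by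
    have h5 : (g - g0) (x : X) = 0 := LinearMap.mem_ker.mp x.2
    rw [sub_apply] at h5
    linarith
  have hx5 : g0 (x : X) ≠ 0 := by
    intro h6
    rw [h6, abs_zero] at hx2
    linarith
  have hx6 : ‖(x : X)‖ < 1 := hx1
  refine ⟨(g0 (x : X))⁻¹ • (x : X), ?_, ?_, ?_⟩
  · rw [map_smul, smul_eq_mul, inv_mul_cancel₀ hx5]
  · rw [map_smul, smul_eq_mul, hx4, inv_mul_cancel₀ hx5]
  · rw [norm_smul, norm_inv, Real.norm_eq_abs]
    have h7 : |g0 (x : X)|⁻¹ ≤ 4 := by
      rw [inv_le_comm₀ (by linarith) (by norm_num)]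
      linarith
    nlinarith [norm_nonneg (x : X)]

theorem pair_surj {v0 v : X} {f0 f g0 g : X →L[ℝ] ℝ} (h0 : Sm v0 f0) (d0 : Dat S T f0 g0)
    (h : Sm v f) (d : Dat S T f g) (hff : f ≠ f0) (hε : ‖f - f0‖ ≤ 1) (a b : ℝ) :
    ∃ e : X, g0 e = a ∧ g e = b := by
  have hg0 := dat_norm1 hS hT h0 d0
  have hg := dat_norm1 hS hT h d
  have key : ∀ l : ℝ, f0 ≠ l • f := by
    intro l hl
    have h1 := h0.norm_eq
    rw [hl, norm_smul, h.norm_eq, mul_one, Real.norm_eq_abs] at h1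
    rcases (abs_eq zero_le_one).mp h1 with h2 | h2
    · rw [h2, one_smul] at hl
      exact hff hl.symm
    · have hl' : f0 = -f := ContinuousLinearMap.ext fun x => by
        rw [hl, smul_apply, neg_apply, h2, smul_eq_mul]
        ring
      rw [hl', sub_neg_eq_add, ← two_smul ℝ f, norm_smul, h.norm_eq] at hε
      norm_num at hε
  have h1 : ∃ e, g e = 0 ∧ g0 e ≠ 0 := by
    by_contra hcon
    push Not at hcon
    obtain ⟨l, hl⟩ := ker_mul (g := g) (g0 := g0) (by
      intro h2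
      rw [h2, norm_zero] at hg
      exact zero_ne_one hg) hcon
    have h3 := dat_norm hS hT d0 d 1 (-l)
    have h4 : (1 : ℝ) • g0 + (-l) • g = 0 := by
      rw [hl]
      module
    rw [h4, norm_zero] at h3
    have h5 := norm_eq_zero.mp h3.symm
    refine key l ?_
    have : f0 = ((1 : ℝ) • f0 + (-l) • f) + l • f := by module
    rw [this, h5, zero_add]
  have h2 : ∃ e, g0 e = 0 ∧ g e ≠ 0 := by
    by_contra hcon
    push Not at hcon
    obtain ⟨l, hl⟩ := ker_mul (g := g0) (g0 := g) (by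
      intro h2
      rw [h2, norm_zero] at hg0
      exact zero_ne_one hg0) hcon
    have h3 := dat_norm hS hT d d0 1 (-l)
    have h4 : (1 : ℝ) • g + (-l) • g0 = 0 := by
      rw [hl]
      module
    rw [h4, norm_zero] at h3
    have h5 := norm_eq_zero.mp h3.symm
    have h6 : f = l • f0 := by
      have : f = ((1 : ℝ) • f + (-l) • f0) + l • f0 := by module
      rw [this, h5, zero_add]
    have hl0 : l ≠ 0 := by
      rintro rfl
      rw [zero_smul] at h6
      have := h.norm_eq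
      rw [h6, norm_zero] at this
      exact zero_ne_one this
    refine key l⁻¹ ?_
    rw [h6, smul_smul, inv_mul_cancel₀ hl0, one_smul]
  obtain ⟨e1, h3, h4⟩ := h1
  obtain ⟨e2, h5, h6⟩ := h2
  refine ⟨(a / g0 e1) • e1 + (b / g e2) • e2, ?_, ?_⟩
  · rw [map_add, map_smul, map_smul, h5, smul_zero, add_zero, smul_eq_mul, div_mul_cancel₀ _ h4]
  · rw [map_add, map_smul, map_smul, h3, smul_zero, zero_add, smul_eq_mul, div_mul_cancel₀ _ h6]

omit hT in
theorem quad {g0 g : X →L[ℝ] ℝ} (hsurj : ∀ a b : ℝ, ∃ e : X, g0 e = a ∧ g e = b) (p : X)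
    {a b : ℝ} (ha : a ≠ 0) (hb : b ≠ 0) :
    ∃ u : S, 0 < a * (g0 u - g0 p) ∧ 0 < b * (g u - g p) ∧ ‖(u : X) - p‖ < 1 / 2 := by
  obtain ⟨e, he1, he2⟩ := hsurj a b
  have hO : IsOpen ({u : X | 0 < a * (g0 u - g0 p)} ∩ ({u : X | 0 < b * (g u - g p)} ∩
      {u : X | ‖u - p‖ < 1 / 2})) := by
    refine IsOpen.inter (isOpen_lt continuous_const (by fun_prop)) (IsOpen.inter
      (isOpen_lt continuous_const (by fun_prop)) (isOpen_lt (by fun_prop) continuous_const))
  have hs : (0 : ℝ) < 1 / (4 * (‖e‖ + 1)) := by positivity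
  obtain ⟨u, hu, huS⟩ := hS.inter_open_nonempty _ hO ⟨p + (1 / (4 * (‖e‖ + 1))) • e, by
    refine ⟨?_, ?_, ?_⟩
    · change 0 < a * (g0 (p + (1 / (4 * (‖e‖ + 1))) • e) - g0 p)
      rw [map_add, map_smul, he1, smul_eq_mul]
      have : a * (g0 p + 1 / (4 * (‖e‖ + 1)) * a - g0 p) = 1 / (4 * (‖e‖ + 1)) * (a * a) := by ring
      rw [this]
      exact mul_pos hs (mul_self_pos.mpr ha)
    · change 0 < b * (g (p + (1 / (4 * (‖e‖ + 1))) • e) - g p)
      rw [map_add, map_smul, he2, smul_eq_mul]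
      have : b * (g p + 1 / (4 * (‖e‖ + 1)) * b - g p) = 1 / (4 * (‖e‖ + 1)) * (b * b) := by ring
      rw [this]
      exact mul_pos hs (mul_self_pos.mpr hb)
    · change ‖p + (1 / (4 * (‖e‖ + 1))) • e - p‖ < 1 / 2
      rw [add_sub_cancel_left, norm_smul, Real.norm_of_nonneg hs.le, one_div,
        inv_mul_lt_iff₀ (by positivity)]
      linarith [norm_nonneg e]⟩
  exact ⟨⟨u, huS⟩, hu.1, hu.2.1, hu.2.2⟩

end

/-- Smooth points close to a given one. -/
theorem nearby [CompleteSpace X] [TopologicalSpace.SeparableSpace (X →L[ℝ] ℝ)]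
    (hsc : ∀ x y : X, ‖x‖ = 1 → ‖y‖ = 1 → x ≠ y → ‖(2⁻¹ : ℝ) • (x + y)‖ < 1)
    {v0 : X} {f0 : X →L[ℝ] ℝ} (h0 : Sm v0 f0) (hdim : ∃ x : X, ∀ r : ℝ, x ≠ r • v0)
    {ε : ℝ} (hε : 0 < ε) : ∃ v f, Sm v f ∧ f ≠ f0 ∧ ‖f - f0‖ ≤ ε ∧ ‖v - v0‖ ≤ 1 / 2 := by
  obtain ⟨η, hη, hsm⟩ := smulian h0 hε
  obtain ⟨w, hw⟩ := hdim
  set δ := min (1 / 4) (η / 2) with hδ
  have hδ0 : 0 < δ := lt_min (by norm_num) (by positivity)
  have hδ1 : δ ≤ 1 / 4 := min_le_left _ _
  have hδ2 : δ ≤ η / 2 := min_le_right _ _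
  have hcl : IsClosed ((Submodule.span ℝ {v0} : Submodule ℝ X) : Set X) :=
    Submodule.closed_of_finiteDimensional _
  have hO : IsOpen (Metric.ball v0 δ ∩ ((Submodule.span ℝ {v0} : Submodule ℝ X) : Set X)ᶜ) :=
    Metric.isOpen_ball.inter hcl.isOpen_compl
  have hs : (0 : ℝ) < δ / (2 * (‖w‖ + 1)) := by positivity
  obtain ⟨q, hq, f, hf⟩ := exists_sm hO ⟨v0 + (δ / (2 * (‖w‖ + 1))) • w, by
    refine ⟨?_, ?_⟩
    · rw [Metric.mem_ball, dist_eq_norm, add_sub_cancel_left, norm_smul, Real.norm_of_nonneg hs.le,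
        div_mul_eq_mul_div, div_lt_iff₀ (by positivity)]
      nlinarith [norm_nonneg w]
    · intro hmem
      obtain ⟨r, hr⟩ := Submodule.mem_span_singleton.mp hmem
      refine hw ((δ / (2 * (‖w‖ + 1)))⁻¹ * (r - 1)) ?_
      have h1 : (δ / (2 * (‖w‖ + 1))) • w = (r - 1) • v0 := by
        rw [sub_smul, one_smul, hr]
        abel
      rw [mul_smul, ← h1, smul_smul, inv_mul_cancel₀ hs.ne', one_smul]⟩ (fun h => h.2
        (Submodule.zero_mem _))
  have hq1 := hq.1
  rw [Metric.mem_ball, dist_eq_norm] at hq1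
  have hq0 : 0 < ‖q‖ := by
    have h1 := norm_sub_norm_le v0 q
    rw [h0.unit, norm_sub_rev] at h1
    linarith
  have hvv : ‖‖q‖⁻¹ • q - v0‖ ≤ 2 * δ := by
    have e : ‖q‖⁻¹ • q - v0 = (‖q‖⁻¹ - 1) • q + (q - v0) := by
      rw [sub_smul, one_smul]
      abel
    rw [e]
    refine (norm_add_le _ _).trans ?_
    rw [norm_smul, Real.norm_eq_abs]
    have h1 : |‖q‖⁻¹ - 1| * ‖q‖ = |‖v0‖ - ‖q‖| := by
      rw [h0.unit]
      nth_rewrite 2 [← abs_of_pos hq0]
      rw [← abs_mul, sub_mul, inv_mul_cancel₀ hq0.ne', one_mul]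
    rw [h1]
    have h2 := abs_norm_sub_norm_le v0 q
    rw [norm_sub_rev] at h2
    linarith
  have hvne : ‖q‖⁻¹ • q ≠ v0 := by
    intro h1
    refine hq.2 (Submodule.mem_span_singleton.mpr ⟨‖q‖, ?_⟩)
    rw [← h1, smul_smul, mul_inv_cancel₀ hq0.ne', one_smul]
  refine ⟨_, f, hf, ?_, ?_, by linarith⟩
  · rintro rfl
    have h1 := hsc _ _ hf.unit h0.unit hvne
    have h2 := (le_abs_self _).trans (hf.le_norm ((2⁻¹ : ℝ) • (‖q‖⁻¹ • q + v0)))
    rw [map_smul, map_add, hf.apply_self, h0.apply_self, smul_eq_mul] at h2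
    norm_num at h2 h1
    linarith
  · refine hsm f hf.norm_eq.le ?_
    have h1 := (le_abs_self _).trans (hf.le_norm (‖q‖⁻¹ • q - v0))
    rw [map_sub, hf.apply_self] at h1
    linarith

section
variable {S : Set X} (hS : Dense S) {T : S ≃ S} (hT : StepOn S T)
include hS hT

/-- The functional of a smooth point is exactly transported. -/
theorem exact [CompleteSpace X] [TopologicalSpace.SeparableSpace (X →L[ℝ] ℝ)]
    (hsc : ∀ x y : X, ‖x‖ = 1 → ‖y‖ = 1 → x ≠ y → ‖(2⁻¹ : ℝ) • (x + y)‖ < 1)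
    {v0 : X} {f0 g0 : X →L[ℝ] ℝ} (h0 : Sm v0 f0) (d0 : Dat S T f0 g0)
    (hdim : ∃ x : X, ∀ r : ℝ, x ≠ r • v0) :
    ∃ c, ∀ x : S, f0 (T x) = g0 x + c := by
  obtain ⟨C, hC⟩ := d0.close
  refine rigid (fun x : S => f0 (T x)) (fun x : S => g0 x) C hC d0.mono ?_ ?_
  · intro a b hab
    obtain ⟨v, f, hf, hff, hfε, hvv⟩ := nearby hsc h0 hdim one_pos
    obtain ⟨g, hg⟩ := exists_dat hS hT hf
    obtain ⟨e, he, -⟩ := pair_surj hS hT h0 d0 hf hg hff hfε ((a + b) / 2) 0
    have hO : IsOpen ({u : X | a < g0 u} ∩ {u : X | g0 u < b}) :=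
      (isOpen_lt continuous_const (by fun_prop)).inter (isOpen_lt (by fun_prop) continuous_const)
    obtain ⟨u, hu, huS⟩ := hS.inter_open_nonempty _ hO ⟨e, by
      constructor
      · change a < g0 e
        linarith
      · change g0 e < b
        linarith⟩
    exact ⟨⟨u, huS⟩, hu.1, hu.2⟩
  · intro t t' a ε hε
    set ε' := min 1 (ε / (2 * (4 * |a| + 2))) with hε'
    have hε0 : 0 < ε' := lt_min one_pos (by positivity)
    obtain ⟨v, f, hf, hff, hfε, hvv⟩ := nearby hsc h0 hdim hε0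
    obtain ⟨g, hg⟩ := exists_dat hS hT hf
    have hsurj := pair_surj hS hT h0 d0 hf hg hff (hfε.trans (min_le_left _ _))
    have hgg : g ≠ g0 := by
      intro h1
      obtain ⟨e, he1, he2⟩ := hsurj 0 1
      rw [h1, he1] at he2
      exact zero_ne_one he2
    obtain ⟨z, hz0, hz1, hz2⟩ := pair_z hS hT h0 d0 hf hg hvv hgg
    obtain ⟨p, hp0, hp1⟩ := hsurj t 0
    obtain ⟨p', hp0', hp1'⟩ := hsurj t' 0
    obtain ⟨y, hy1, hy2, hy3⟩ := quad hS hsurj p (a := -1) (b := 1) (by norm_num) (by norm_num)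
    obtain ⟨x, hx1, hx2, hx3⟩ := quad hS hsurj (p + a • z) (a := 1) (b := -1) (by norm_num)
      (by norm_num)
    obtain ⟨y', hy1', hy2', hy3'⟩ := quad hS hsurj p' (a := 1) (b := -1) (by norm_num)
      (by norm_num)
    obtain ⟨x', hx1', hx2', hx3'⟩ := quad hS hsurj (p' + a • z) (a := -1) (b := 1) (by norm_num)
      (by norm_num)
    rw [map_add, map_smul, smul_eq_mul, hz0] at hx1 hx1'
    rw [map_add, map_smul, smul_eq_mul, hz1] at hx2 hx2'
    rw [hp0] at hy1 hx1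
    rw [hp0'] at hy1' hx1'
    rw [hp1] at hy2 hx2
    rw [hp1'] at hy2' hx2'
    refine ⟨x, y, x', y', by linarith, by linarith, by linarith, by linarith, ?_⟩
    -- monotonicity for `f`
    have hm : ∀ u u' : S, g u < g u' → f (T u) ≤ f (T u') := by
      intro u u' huu
      by_contra hlt
      push Not at hlt
      have := hg.mono u' u hlt
      linarith
    have h1 := hm y' y (by linarith)
    have h2 := hm x x' (by linarith)
    -- comparison of `f` and `f0`
    have hcmp : ∀ (u w : S) (q : X), ‖(u : X) - (q + a • z)‖ < 1 / 2 → ‖(w : X) - q‖ < 1 / 2 →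
        |(f - f0) ((T u : X) - T w)| ≤ ε' * (4 * |a| + 2) := by
      intro u w q hu hw
      have h3 : ‖(u : X) - w‖ ≤ 4 * |a| + 1 := by
        have e : (u : X) - w = ((u : X) - (q + a • z)) + a • z - ((w : X) - q) := by abel
        rw [e]
        refine (norm_sub_le _ _).trans ?_
        have h4 := norm_add_le ((u : X) - (q + a • z)) (a • z)
        have h5 : ‖a • z‖ ≤ 4 * |a| := by
          rw [norm_smul, Real.norm_eq_abs]
          nlinarith [abs_nonneg a]
        linarith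
      have h4 := hT.abs_le u w
      rw [abs_le] at h4
      have h5 := (f - f0).le_opNorm ((T u : X) - T w)
      rw [Real.norm_eq_abs] at h5
      refine h5.trans (mul_le_mul hfε (by linarith [h4.1]) (norm_nonneg _) hε0.le)
    have h3 := hcmp x y p hx3 hy3
    have h4 := hcmp x' y' p' hx3' hy3'
    rw [abs_le, sub_apply, map_sub, map_sub] at h3 h4
    have h5 : ε' * (4 * |a| + 2) ≤ ε / 2 := by
      have h6 : ε' ≤ ε / (2 * (4 * |a| + 2)) := min_le_right _ _
      rw [le_div_iff₀ (by positivity)] at h6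
      linarith
    have h6 : f0 (T x) - f0 (T y) ≤ f (T x) - f (T y) + ε / 2 := by linarith [h3.1, h3.2]
    have h7 : f (T x') - f (T y') ≤ f0 (T x') - f0 (T y') + ε / 2 := by linarith [h4.1, h4.2]
    change f0 (T x) - f0 (T y) ≤ f0 (T x') - f0 (T y') + ε
    linarith

/-- In dimension at least two a step isometry is non-expansive. -/
theorem contr [CompleteSpace X] [TopologicalSpace.SeparableSpace (X →L[ℝ] ℝ)]
    (hsc : ∀ x y : X, ‖x‖ = 1 → ‖y‖ = 1 → x ≠ y → ‖(2⁻¹ : ℝ) • (x + y)‖ < 1)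
    (hdim : ∀ v : X, ∃ x : X, ∀ r : ℝ, x ≠ r • v) (x y : S) :
    ‖(T x : X) - T y‖ ≤ ‖(x : X) - y‖ := by
  set u := (T x : X) - T y with hu
  rcases eq_or_ne u 0 with h0 | h0
  · rw [h0, norm_zero]
    exact norm_nonneg _
  refine le_of_forall_pos_le_add fun ε hε => ?_
  have hu0 : 0 < ‖u‖ := norm_pos_iff.mpr h0
  set δ := min (‖u‖ / 2) (ε / 2) with hδ
  have hδ0 : 0 < δ := lt_min (by positivity) (by positivity)
  have hδ1 : δ ≤ ‖u‖ / 2 := min_le_left _ _
  have hδ2 : δ ≤ ε / 2 := min_le_right _ _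
  obtain ⟨q, hq, f, hf⟩ := exists_sm (O := Metric.ball u δ) Metric.isOpen_ball
    ⟨u, Metric.mem_ball_self hδ0⟩ (by
      rw [Metric.mem_ball, dist_comm, dist_zero_right]
      linarith)
  rw [Metric.mem_ball, dist_eq_norm] at hq
  have hq0 : 0 < ‖q‖ := by
    have h1 := norm_sub_norm_le u q
    rw [norm_sub_rev u q] at h1
    linarith
  have hfq : f q = ‖q‖ := by
    have h1 := hf.apply_self
    rw [map_smul, smul_eq_mul, inv_mul_eq_div, div_eq_one_iff_eq hq0.ne'] at h1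
    exact h1
  obtain ⟨g, hg⟩ := exists_dat hS hT hf
  obtain ⟨c, hc⟩ := exact hS hT hsc hf hg (hdim _)
  have h1 : f u = g ((x : X) - y) := by
    rw [hu, map_sub, map_sub, hc, hc]
    ring
  have h2 : g ((x : X) - y) ≤ ‖(x : X) - y‖ := apply_le (dat_norm1 hS hT hf hg).le _
  have h3 := (le_abs_self _).trans (hf.le_norm (q - u))
  rw [map_sub, hfq] at h3
  have h4 := norm_sub_norm_le u q
  rw [norm_sub_rev u q] at h4
  linarith

end

end Pool.Agent.R165.StepIso
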