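import Pool.Agent.R165.StepIso.C

/-!
# Extension of step isometries
-/

namespace Pool.Agent.R165.StepIso

open Filter Topology Set

variable {X : Type*} [NormedAddCommGroup X] [NormedSpace ℝ X]

theorem assemble {S : Set X} (hS : Dense S) {T : S ≃ S} {A B : X → X} (hA : Continuous A)
    (hB : Continuous B) (hAT : ∀ s : S, A s = T s) (hBT : ∀ s : S, B s = T.symm s)
    (hA1 : ∀ (x y : X) (k : ℤ), ‖x - y‖ < k → ‖A x - A y‖ < k)
    (hB1 : ∀ (x y : X) (k : ℤ), ‖x - y‖ < k → ‖B x - B y‖ < k) :
    ∃ F : X → X, Function.Bijective F ∧ (∀ x y, ⌊‖x - y‖⌋ = ⌊‖F x - F y‖⌋) ∧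
      ∀ s : S, F s = T s := by
  have hBA : ∀ x, B (A x) = x := by
    have : B ∘ A = id := by
      refine Continuous.ext_on hS (hB.comp hA) continuous_id fun s hs => ?_
      have h1 := hAT ⟨s, hs⟩
      have h2 := hBT (T ⟨s, hs⟩)
      rw [T.symm_apply_apply] at h2
      change B (A s) = s
      change A s = _ at h1
      rw [h1, h2]
    exact congrFun this
  have hAB : ∀ x, A (B x) = x := by
    have : A ∘ B = id := by
      refine Continuous.ext_on hS (hA.comp hB) continuous_id fun s hs => ?_
      have h1 := hBT ⟨s, hs⟩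
      have h2 := hAT (T.symm ⟨s, hs⟩)
      rw [T.apply_symm_apply] at h2
      change A (B s) = s
      change B s = _ at h1
      rw [h1, h2]
    exact congrFun this
  refine ⟨A, ⟨Function.LeftInverse.injective hBA, Function.RightInverse.surjective hAB⟩,
    fun x y => le_antisymm ?_ ?_, hAT⟩
  · have h1 := Int.lt_floor_add_one ‖A x - A y‖
    have h2 := hB1 (A x) (A y) (⌊‖A x - A y‖⌋ + 1) (by push_cast; exact h1)
    rw [hBA, hBA] at h2
    exact Int.lt_add_one_iff.mp (Int.floor_lt.mpr h2)
  · have h1 := Int.lt_floor_add_one ‖x - y‖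
    have h2 := hA1 x y (⌊‖x - y‖⌋ + 1) (by push_cast; exact h1)
    exact Int.lt_add_one_iff.mp (Int.floor_lt.mpr h2)

theorem extend_isom [CompleteSpace X] {S : Set X} (hS : Dense S) {T : S ≃ S}
    (h : ∀ x y : S, ‖(T x : X) - T y‖ = ‖(x : X) - y‖) :
    ∃ A : X → X, Continuous A ∧ (∀ s : S, A s = T s) ∧
      ∀ (x y : X) (k : ℤ), ‖x - y‖ < k → ‖A x - A y‖ < k := by
  have huc : UniformContinuous (fun s : S => (T s : X)) := by
    refine Isometry.uniformContinuous (Isometry.of_dist_eq fun x y => ?_)
    rw [dist_eq_norm, h x y]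
    exact (dist_eq_norm (x : X) y).symm
  have hcont : Continuous (hS.extend (fun s : S => (T s : X))) :=
    (hS.uniformContinuous_extend huc).continuous
  have hval : ∀ s : S, hS.extend (fun s : S => (T s : X)) s = T s :=
    fun s => hS.extend_of_ind huc s
  refine ⟨_, hcont, hval, fun x y k hxy => ?_⟩
  have key : ∀ x y : X, ‖hS.extend (fun s : S => (T s : X)) x -
      hS.extend (fun s : S => (T s : X)) y‖ = ‖x - y‖ := by
    have h1 : ∀ (s : S) (y : X), ‖hS.extend (fun s : S => (T s : X)) s -
        hS.extend (fun s : S => (T s : X)) y‖ = ‖(s : X) - y‖ := by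
      intro s
      have h2 : (fun y : X => ‖hS.extend (fun s : S => (T s : X)) s -
        hS.extend (fun s : S => (T s : X)) y‖) = fun y : X => ‖(s : X) - y‖ := by
        refine Continuous.ext_on hS (by fun_prop) (by fun_prop) fun y hy => ?_
        change ‖hS.extend (fun s : S => (T s : X)) s -
          hS.extend (fun s : S => (T s : X)) ((⟨y, hy⟩ : S) : X)‖ = _
        rw [hval, hval]
        exact h s ⟨y, hy⟩
      exact congrFun h2
    intro x y
    have h2 : (fun x : X => ‖hS.extend (fun s : S => (T s : X)) x -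
        hS.extend (fun s : S => (T s : X)) y‖) = fun x : X => ‖x - y‖ := by
      refine Continuous.ext_on hS (by fun_prop) (by fun_prop) fun x hx => ?_
      exact h1 ⟨x, hx⟩ y
    exact congrFun h2 x
  rw [key]
  exact hxy

/-- Dimension one. -/
theorem extend_dim1 {S : Set X} (hS : Dense S) {T : S ≃ S} (hT : StepOn S T) {v : X}
    {f g : X →L[ℝ] ℝ} (h : Sm v f) (d : Dat S T f g) (hdim : ∀ x : X, x = f x • v) :
    ∃ A : X → X, Continuous A ∧ (∀ s : S, A s = T s) ∧
      ∀ (x y : X) (k : ℤ), ‖x - y‖ < k → ‖A x - A y‖ < k := by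
  have hg := dat_norm1 hS hT h d
  have hnf : ∀ x : X, ‖x‖ = |f x| := by
    intro x
    nth_rewrite 1 [hdim x]
    rw [norm_smul, h.unit, mul_one, Real.norm_eq_abs]
  have hgx : ∀ x : X, g x = f x * g v := by
    intro x
    nth_rewrite 1 [hdim x]
    rw [map_smul, smul_eq_mul]
  have hgv : |g v| = 1 := by
    refine le_antisymm ?_ ?_
    · have := g.le_opNorm v
      rw [hg, h.unit, mul_one, Real.norm_eq_abs] at this
      exact this
    · rw [← hg]
      refine g.opNorm_le_bound (abs_nonneg _) fun x => ?_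
      rw [Real.norm_eq_abs, hgx, abs_mul, hnf, mul_comm]
  have hng : ∀ x : X, ‖x‖ = |g x| := by
    intro x
    rw [hgx, abs_mul, hgv, mul_one, hnf]
  have hgv0 : g v ≠ 0 := by
    intro h0
    rw [h0, abs_zero] at hgv
    exact zero_ne_one hgv
  have hd : ∀ a b : ℝ, a < b → ∃ s : S, a < g s ∧ g s < b := by
    intro a b hab
    have hO : IsOpen ({u : X | a < g u} ∩ {u : X | g u < b}) :=
      (isOpen_lt continuous_const (by fun_prop)).inter (isOpen_lt (by fun_prop) continuous_const)
    obtain ⟨u, hu, huS⟩ := hS.inter_open_nonempty _ hO ⟨((a + b) / 2 / g v) • v, by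
      have : g (((a + b) / 2 / g v) • v) = (a + b) / 2 := by
        rw [map_smul, smul_eq_mul, div_mul_cancel₀ _ hgv0]
      constructor
      · change a < g _
        rw [this]
        linarith
      · change g _ < b
        rw [this]
        linarith⟩
    exact ⟨⟨u, huS⟩, hu.1, hu.2⟩
  obtain ⟨C, hC⟩ := d.close
  set H : ℝ → ℝ := fun t => sSup ((fun s : S => f (T s)) '' {s | g s < t}) with hH
  have hbdd : ∀ t, BddAbove ((fun s : S => f (T s)) '' {s | g s < t}) := by
    intro t
    refine ⟨t + C, ?_⟩
    rintro _ ⟨x, hx, rfl⟩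
    have h1 := (abs_le.mp (hC x)).1
    have h2 : g x < t := hx
    change f (T x) ≤ t + C
    linarith
  have hne : ∀ t, ((fun s : S => f (T s)) '' {s | g s < t}).Nonempty := by
    intro t
    obtain ⟨x, -, hx⟩ := hd (t - 1) t (by linarith)
    exact ⟨_, x, hx, rfl⟩
  have H1 : ∀ (s : S) t, g s < t → f (T s) ≤ H t := fun s t hs => le_csSup (hbdd t) ⟨s, hs, rfl⟩
  have hmono : Monotone H := by
    intro t t' htt
    refine csSup_le_csSup (hbdd t') (hne t) (image_mono ?_)
    intro s hs
    exact lt_of_lt_of_le hs htt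
  have hval : ∀ s : S, H (g s) = f (T s) := by
    intro s
    refine le_antisymm ?_ ?_
    · refine csSup_le (hne _) ?_
      rintro _ ⟨y, hy, rfl⟩
      by_contra hlt
      push Not at hlt
      have h1 := d.mono s y hlt
      have h2 : g y < g s := hy
      linarith
    · by_contra hlt
      push Not at hlt
      have hO : IsOpen ({u : X | H (g s) < f u} ∩ {u : X | f u < f (T s)}) :=
        (isOpen_lt continuous_const (by fun_prop)).inter (isOpen_lt (by fun_prop) continuous_const)
      obtain ⟨u, hu, huS⟩ := hS.inter_open_nonempty _ hO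
        ⟨((H (g s) + f (T s)) / 2) • v, by
          have : f (((H (g s) + f (T s)) / 2) • v) = (H (g s) + f (T s)) / 2 := by
            rw [map_smul, smul_eq_mul, h.apply_self, mul_one]
          constructor
          · change _ < f _
            rw [this]
            linarith
          · change f _ < _
            rw [this]
            linarith⟩
      have hu1 : H (g s) < f u := hu.1
      have hu2 : f u < f (T s) := hu.2
      set w : S := T.symm ⟨u, huS⟩ with hw
      have hTw : (T w : X) = u := by rw [hw, T.apply_symm_apply]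
      have h1 := d.mono w s (by rw [hTw]; exact hu2)
      rcases h1.lt_or_eq with h2 | h2
      · have h3 := H1 w _ h2
        rw [hTw] at h3
        linarith
      · have h3 : (w : X) = s := by
          have h4 := hng ((w : X) - s)
          rw [map_sub, h2, sub_self, abs_zero] at h4
          exact sub_eq_zero.mp (norm_eq_zero.mp h4)
        have h4 : w = s := Subtype.ext h3
        rw [h4] at hTw
        rw [hTw] at hu2
        exact lt_irrefl _ hu2
  have hdr : DenseRange H := by
    intro r
    rw [mem_closure_iff]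
    intro O hO hr
    have hO' : IsOpen {u : X | f u ∈ O} := hO.preimage f.continuous
    obtain ⟨u, hu, huS⟩ := hS.inter_open_nonempty _ hO' ⟨r • v, by
      change f (r • v) ∈ O
      rw [map_smul, h.apply_self, smul_eq_mul, mul_one]
      exact hr⟩
    refine ⟨f u, hu, g (T.symm ⟨u, huS⟩ : S), ?_⟩
    rw [hval, T.apply_symm_apply]
  have hHc : Continuous H := hmono.continuous_of_denseRange hdr
  refine ⟨fun x => H (g x) • v, (hHc.comp g.continuous).smul continuous_const, fun s => ?_, ?_⟩
  · change H (g s) • v = T s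
    rw [hval]
    exact (hdim _).symm
  · have key : ∀ (x y : X) (k : ℤ), g x ≤ g y → ‖x - y‖ < k →
        ‖H (g x) • v - H (g y) • v‖ < k := by
      intro x y k hxy hk
      rw [hng, map_sub, abs_sub_comm, abs_of_nonneg (by linarith)] at hk
      obtain ⟨s, hs1, hs2⟩ := hd (g x - (k - (g y - g x)) / 2) (g x) (by linarith)
      obtain ⟨s', hs1', hs2'⟩ := hd (g y) (g y + (k - (g y - g x)) / 2) (by linarith)
      rw [← sub_smul, norm_smul, h.unit, mul_one, Real.norm_eq_abs, abs_sub_comm,
        abs_of_nonneg (by linarith [hmono hxy])]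
      have h1 := hmono hs2.le
      have h2 := hmono hs1'.le
      rw [hval] at h1 h2
      have h3 : ‖(s' : X) - s‖ < k := by
        rw [hng, map_sub, abs_of_nonneg (by linarith)]
        linarith
      have h4 := (hT.lt_iff s' s k).mp h3
      have h5 := (le_abs_self _).trans (h.le_norm ((T s' : X) - T s))
      rw [map_sub] at h5
      linarith
    intro x y k hk
    rcases le_total (g x) (g y) with h1 | h1
    · exact key x y k h1 hk
    · have := key y x k h1 (by rw [norm_sub_rev]; exact hk)
      rwa [norm_sub_rev] at this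

/-- Step isometries of dense subsets extend: real scalars. -/
theorem real_main [CompleteSpace X] [TopologicalSpace.SeparableSpace (X →L[ℝ] ℝ)]
    (hsc : ∀ x y : X, ‖x‖ = 1 → ‖y‖ = 1 → x ≠ y → ‖(2⁻¹ : ℝ) • (x + y)‖ < 1)
    {S : Set X} (hS : Dense S) {T : S ≃ S} (hT : StepOn S T) :
    ∃ F : X → X, Function.Bijective F ∧ (∀ x y, ⌊‖x - y‖⌋ = ⌊‖F x - F y‖⌋) ∧
      ∀ s : S, F s = T s := by
  by_cases hdim : ∀ v : X, ∃ x : X, ∀ r : ℝ, x ≠ r • v
  · have h1 : ∀ x y : S, ‖(T x : X) - T y‖ = ‖(x : X) - y‖ := by
      intro x y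
      refine le_antisymm (contr hS hT hsc hdim x y) ?_
      have := contr hS hT.symm hsc hdim (T x) (T y)
      rwa [T.symm_apply_apply, T.symm_apply_apply] at this
    have h2 : ∀ x y : S, ‖(T.symm x : X) - T.symm y‖ = ‖(x : X) - y‖ := by
      intro x y
      have := h1 (T.symm x) (T.symm y)
      rw [T.apply_symm_apply, T.apply_symm_apply] at this
      exact this.symm
    obtain ⟨A, hA, hAT, hA1⟩ := extend_isom hS h1
    obtain ⟨B, hB, hBT, hB1⟩ := extend_isom hS h2
    exact assemble hS hA hB hAT hBT hA1 hB1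
  · push Not at hdim
    obtain ⟨v1, hv1⟩ := hdim
    rcases subsingleton_or_nontrivial X with hX | hX
    · exact ⟨id, Function.bijective_id, fun x y => rfl, fun s => Subsingleton.elim _ _⟩
    · obtain ⟨q, hq, f, hf⟩ := exists_sm (X := X) (O := {0}ᶜ) isOpen_compl_singleton (by
        obtain ⟨x, hx⟩ := exists_ne (0 : X)
        exact ⟨x, hx⟩) (fun h => h rfl)
      set v := ‖q‖⁻¹ • q with hv
      have hx : ∀ x : X, x = f x • v := by
        intro x
        obtain ⟨r, hr⟩ := hv1 x
        obtain ⟨s, hs⟩ := hv1 v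
        have hs0 : s ≠ 0 := by
          rintro rfl
          rw [zero_smul] at hs
          exact hf.ne_zero hs
        have h1 : v1 = s⁻¹ • v := by
          rw [hs, smul_smul, inv_mul_cancel₀ hs0, one_smul]
        have h2 : x = (r * s⁻¹) • v := by
          rw [hr, h1, smul_smul]
        have h3 : f x = r * s⁻¹ := by
          rw [h2, map_smul, hf.apply_self, smul_eq_mul, mul_one]
        rw [h3]
        exact h2
      obtain ⟨g, hg⟩ := exists_dat hS hT hf
      obtain ⟨g', hg'⟩ := exists_dat hS hT.symm hf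
      obtain ⟨A, hA, hAT, hA1⟩ := extend_dim1 hS hT hf hg hx
      obtain ⟨B, hB, hBT, hB1⟩ := extend_dim1 hS hT.symm hf hg' hx
      exact assemble hS hA hB hAT hBT hA1 hB1

end Pool.Agent.R165.StepIso
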